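import Pool.Agent.N889.AO.Stm

/-!
# Derivations modulo `p` without eigenvalues in the prime field
-/

set_option autoImplicit false

namespace Pool.Agent.N833.AO

open Polynomial Matrix
open Pool.Agent.N889.AO

/-- the size of a coherent component -/
noncomputable def cd {n : ℕ} (G : SimpleGraph (Fin n)) (i : Fin n) : ℕ :=
  Nat.card {j // Coh G i j}

theorem cd_le {n : ℕ} (G : SimpleGraph (Fin n)) (i : Fin n) : cd G i ≤ n := by
  have h := Nat.card_le_card_of_injective (fun j : {j // Coh G i j} => (j : Fin n))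
    Subtype.val_injective
  simpa [cd] using h

theorem cd_eq {n : ℕ} (G : SimpleGraph (Fin n)) {i j : Fin n} (h : Coh G i j) :
    cd G i = cd G j := by
  unfold cd
  apply Nat.card_congr
  refine Equiv.subtypeEquivRight fun x => ?_
  exact ⟨fun hx => h.symm.trans hx, fun hx => h.trans hx⟩

theorem two_le_cd {n : ℕ} (G : SimpleGraph (Fin n)) (i b : Fin n) (hb : b ≠ i)
    (h : Coh G i b) : 2 ≤ cd G i := by
  have h1 : Function.Injective (fun x : Fin 2 => (if x = 0 then ⟨i, Coh.refl G i⟩ else ⟨b, h⟩ :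
      {j // Coh G i j})) := by
    intro x y hxy
    fin_cases x <;> fin_cases y
    · rfl
    · exfalso
      have := congrArg Subtype.val hxy
      simp at this
      exact hb this.symm
    · exfalso
      have := congrArg Subtype.val hxy
      simp at this
      exact hb this
    · rfl
  have h2 := Nat.card_le_card_of_injective _ h1
  simpa [cd] using h2

theorem three_le_cd {n : ℕ} (G : SimpleGraph (Fin n)) (i j d : Fin n) (hij : i ≠ j)
    (hdi : d ≠ i) (hdj : d ≠ j) (h : Coh G i j) (hd : Coh G i d) : 3 ≤ cd G i := by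
  classical
  have h2 : ({i, j, d} : Finset (Fin n)) ⊆ Finset.univ.filter (fun x => Coh G i x) := by
    intro x hx
    simp only [Finset.mem_insert, Finset.mem_singleton] at hx
    simp only [Finset.mem_filter, Finset.mem_univ, true_and]
    rcases hx with rfl | rfl | rfl
    · exact Coh.refl G _
    · exact h
    · exact hd
  have h3 := Finset.card_le_card h2
  have h4 : ({i, j, d} : Finset (Fin n)).card = 3 := by
    rw [Finset.card_insert_of_notMem, Finset.card_pair]
    · exact hdj.symm
    · simp only [Finset.mem_insert, Finset.mem_singleton, not_or]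
      exact ⟨hij, hdi.symm⟩
  have h5 : cd G i = (Finset.univ.filter (fun x => Coh G i x)).card := by
    unfold cd
    rw [Nat.card_eq_fintype_card, Fintype.card_subtype]
  omega

theorem stmModp (hF : StmFld) (hB : StmBlk) (hE : StmExt) : StmModp := by
  intro n G _ hG p _ hp hn
  obtain ⟨g, hg, hf⟩ := hF n p hp hn
  obtain ⟨K, _, _, Y, Q, a, θ, hY, hQ, hdet, hθ, ha, haa, hQY⟩ := hB n (cohSetoid G) p g hg hn
  obtain ⟨D, hD, hr⟩ := hE n G (ZMod p) K Y Q (fun i => (a i : K) * (θ i + θ i ^ 2)) hY hQ hdet hQY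
  have hd2 : ∀ i, 2 ≤ cd G i := by
    intro i
    obtain ⟨b, hb, hc⟩ := hG.1 i
    exact two_le_cd G i b hb hc
  have hθ' : ∀ i, θ i ^ (cd G i) = algebraMap (ZMod p) K g := hθ
  refine ⟨D, hD, ?_⟩
  intro r hroot
  rcases hr r hroot with ⟨i, hi⟩ | ⟨i, j, hij, hi⟩
  · exact (hf K (cd G i) (θ i) (a i) (hd2 i) (cd_le G i) (hθ' i) (ha i).1 (ha i).2).1 r hi
  · refine (hf K (cd G i) (θ i) (a i) (hd2 i) (cd_le G i) (hθ' i) (ha i).1 (ha i).2).2
      (cd G j) (θ j) (a j) (hd2 j) (cd_le G j) (hθ' j) (ha j).1 (ha j).2 ?_ r hi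
    by_cases hc : Coh G i j
    · right
      obtain ⟨d, hdi, hdj, hd⟩ := hG.2 i j hij hc
      exact ⟨three_le_cd G i j d hij.ne hdi hdj hc hd, cd_eq G hc⟩
    · left
      intro he
      exact hc ((haa i j).1 he)

end Pool.Agent.N833.AO
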